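import Pool.Agent.N929.OM.Stm

/-!
# Project OM (helper929): the path reaches the sides of the triangles (HIT)
-/

set_option autoImplicit false

namespace Pool.Agent.N344.OM

open Pool.Agent.N929.ON (dir St rt front Val step S_INJ)
open Pool.Agent.N929.OM

theorem dir_add : ∀ k : Fin 6, dir (k + 1) + dir (k - 1) = dir k := by decide

theorem faces (σ : ℤ × ℤ → Bool) (s : St) :
    ((step σ s).1 = front s ∧ rt (step σ s) = rt s) ∨
      ((step σ s).1 = s.1 ∧ rt (step σ s) = front s) := by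
  unfold step
  by_cases h : σ (front s) = true
  · rw [if_pos h]
    refine Or.inl ⟨rfl, ?_⟩
    change s.1 + dir (s.2 + 1) + dir (s.2 - 1) = s.1 + dir s.2
    rw [add_assoc, dir_add]
  · rw [if_neg h]
    exact Or.inr ⟨rfl, rfl⟩

theorem pt_succ (σ : ℤ × ℤ → Bool) (i : ℕ) : pt σ (i + 1) = step σ (pt σ i) :=
  Function.iterate_succ_apply' _ _ _

/-- Fact A -/
theorem inQ (σ : ℤ × ℤ → Bool) {k : ℤ} (hk : 1 ≤ k) (i : ℕ) :
    (∀ i' < i, Q k (front (pt σ i'))) → Q k (pt σ i).1 ∧ Q k (rt (pt σ i)) := by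
  induction i with
  | zero =>
    intro _
    have h0 : rt start = (1, 0) := by decide
    constructor
    · change Q k (0, 0)
      exact ⟨by show (0 : ℤ) ≤ k; omega, by show (0 : ℤ) ≤ k; omega, by show -k ≤ 0 + 0; omega⟩
    · change Q k (rt start)
      rw [h0]
      exact ⟨by show (1 : ℤ) ≤ k; omega, by show (0 : ℤ) ≤ k; omega, by show -k ≤ 1 + 0; omega⟩
  | succ i ih =>
    intro h
    have h1 := ih fun i' hi' => h i' (by omega)
    have h2 := h i (by omega)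
    rw [pt_succ]
    rcases faces σ (pt σ i) with ⟨e1, e2⟩ | ⟨e1, e2⟩
    · rw [e1, e2]
      exact ⟨h2, h1.2⟩
    · rw [e1, e2]
      exact ⟨h1.1, h2⟩

theorem valid (hinj : S_INJ) (σ : ℤ × ℤ → Bool) (h0 : Val σ start) (i : ℕ) :
    Val σ (pt σ i) := by
  induction i with
  | zero => exact h0
  | succ i ih =>
    rw [pt_succ]
    exact (hinj σ).1 _ ih

/-- the states on the boundary below the start, with the height `h` -/
def Bst (h : ℤ) (s : St) : Prop :=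
  (∃ y : ℤ, y ≤ 0 ∧ s = ((0, y), 0) ∧ h = 2 * y) ∨
    ∃ y : ℤ, y ≤ 0 ∧ s = ((0, y), 5) ∧ h = 2 * y - 1

section

variable {V : Finset (ℤ × ℤ)} {η σ : ℤ × ℤ → Bool} {R : ℕ}

theorem Q_mono {k : ℤ} (hk : k ≤ R) {f : ℤ × ℤ} (h : Q k f) : Q R f := by
  obtain ⟨h1, h2, h3⟩ := h
  exact ⟨by omega, by omega, by omega⟩

/-- the signs in the rows `≤ 0` -/
theorem low (hF : Flat V η R) (hB : Bdy V η σ) {f : ℤ × ℤ} (hf : Q R f) (h : f.2 ≤ 0) :
    σ f = decide (f.1 ≤ 0) := by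
  obtain ⟨h1, h2⟩ := (hF f hf).2 h
  rw [hB f h1, h2]

theorem row_of_notMem (hF : Flat V η R) {f : ℤ × ℤ} (hf : Q R f) (h : f ∉ V) : f.2 ≤ 0 := by
  by_contra h1
  exact h ((hF f hf).1 (by omega))

theorem row_of_mem (hF : Flat V η R) {f : ℤ × ℤ} (hf : Q R f) (h : f ∈ V) : 1 ≤ f.2 := by
  by_contra h1
  exact ((hF f hf).2 (by omega)).1 h

/-- Fact B -/
theorem factB (hF : Flat V η R) (hB : Bdy V η σ) {s : St} (hv : Val σ s) (h1 : Q R s.1)
    (h2 : Q R (rt s)) (hn : ¬ Inn V s) : ∃ h : ℤ, Bst h s := by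
  unfold Inn at hn
  rw [not_or] at hn
  have r1 := row_of_notMem hF h1 hn.1
  have r2 := row_of_notMem hF h2 hn.2
  have s1 := hv.1
  have s2 := hv.2
  rw [low hF hB h1 r1] at s1
  rw [low hF hB h2 r2] at s2
  have c1 : s.1.1 ≤ 0 := of_decide_eq_true s1
  have c2 : ¬ (rt s).1 ≤ 0 := of_decide_eq_false s2
  obtain ⟨⟨x, y⟩, d⟩ := s
  change x ≤ 0 at c1
  change ¬ x + (dir d).1 ≤ 0 at c2
  change y ≤ 0 at r1
  have hd : ∀ d : Fin 6, (dir d).1 ≤ 1 ∧ ((dir d).1 = 1 → d = 0 ∨ d = 5) := by decide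
  obtain ⟨hd1, hd2⟩ := hd d
  have hx : x = 0 := by omega
  subst hx
  rcases hd2 (by omega) with rfl | rfl
  · exact ⟨_, Or.inl ⟨y, r1, rfl, rfl⟩⟩
  · exact ⟨_, Or.inr ⟨y, r1, rfl, rfl⟩⟩

/-- the previous state -/
theorem back (hF : Flat V η R) (hB : Bdy V η σ) {t : St} (hv : Val σ t) (h1 : Q R t.1)
    (h2 : Q R (rt t)) {h : ℤ} (hs : Bst h (step σ t)) : Bst (h - 1) t := by
  obtain ⟨⟨x, z⟩, d⟩ := t
  unfold step at hs
  have e1 : ∀ d : Fin 6, d - 1 = 0 → d = 1 := by decide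
  have e2 : ∀ d : Fin 6, d + 1 = 0 → d = 5 := by decide
  have e3 : ∀ d : Fin 6, d - 1 = 5 → d = 0 := by decide
  have e4 : ∀ d : Fin 6, d + 1 = 5 → d = 4 := by decide
  have d1 : dir 1 = (0, 1) := by decide
  have d2 : dir (1 + 1) = (-1, 1) := by decide
  have d3 : dir (0 + 1) = (0, 1) := by decide
  have d4 : dir 4 = (0, -1) := by decide
  by_cases hc : σ (front ((x, z), d)) = true
  · rw [if_pos hc] at hs
    rcases hs with ⟨y, hy, hs, hh⟩ | ⟨y, hy, hs, hh⟩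
    · -- `(1, y - 1)` would be `+`
      exfalso
      rw [Prod.mk.injEq] at hs
      obtain ⟨hs1, hs2⟩ := hs
      change d - 1 = 0 at hs2
      have hd := e1 d hs2
      subst hd
      change (x, z) + dir (1 + 1) = (0, y) at hs1
      rw [d2, Prod.mk_add_mk, Prod.mk.injEq] at hs1
      have h3 := low hF hB h1 (by show z ≤ 0; omega)
      have h4 := hv.1
      rw [h3] at h4
      have h5 : x ≤ 0 := of_decide_eq_true h4
      omega
    · rw [Prod.mk.injEq] at hs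
      obtain ⟨hs1, hs2⟩ := hs
      change d - 1 = 5 at hs2
      have hd := e3 d hs2
      subst hd
      change (x, z) + dir (0 + 1) = (0, y) at hs1
      rw [d3, Prod.mk_add_mk, Prod.mk.injEq] at hs1
      have hx : x = 0 := by omega
      subst hx
      exact Or.inl ⟨z, by omega, rfl, by omega⟩
  · rw [if_neg hc] at hs
    rcases hs with ⟨y, hy, hs, hh⟩ | ⟨y, hy, hs, hh⟩
    · rw [Prod.mk.injEq, Prod.mk.injEq] at hs
      obtain ⟨⟨hs1, hs1'⟩, hs2⟩ := hs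
      change d + 1 = 0 at hs2
      have hd := e2 d hs2
      subst hd
      subst hs1 hs1'
      exact Or.inr ⟨z, hy, rfl, by omega⟩
    · -- `(0, y - 1)` would be `-`
      exfalso
      rw [Prod.mk.injEq, Prod.mk.injEq] at hs
      obtain ⟨⟨hs1, hs1'⟩, hs2⟩ := hs
      change d + 1 = 5 at hs2
      have hd := e4 d hs2
      subst hd
      subst hs1 hs1'
      have h0 : rt (((0 : ℤ), z), (4 : Fin 6)) = (0, z - 1) := by
        change ((0 : ℤ), z) + dir 4 = _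
        rw [d4, Prod.mk_add_mk]
        rfl
      have h3 := low hF hB h2 (by rw [h0]; show z - 1 ≤ 0; omega)
      have h4 := hv.2
      rw [h3, h0] at h4
      have h5 : ¬ (0 : ℤ) ≤ 0 := of_decide_eq_false h4
      omega

theorem height (hinj : S_INJ) (hF : Flat V η R) (hB : Bdy V η σ) (h0 : Val σ start) {k : ℤ}
    (hk : 1 ≤ k) (hkR : k ≤ R) (i : ℕ) : (∀ i' < i, Q k (front (pt σ i'))) →
    ∀ h : ℤ, Bst h (pt σ i) → h = i := by
  induction i with
  | zero =>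
    intro _ h hs
    change Bst h ((0, 0), 0) at hs
    rcases hs with ⟨y, -, hs, hh⟩ | ⟨y, -, hs, hh⟩
    · rw [Prod.mk.injEq, Prod.mk.injEq] at hs
      obtain ⟨⟨-, h1⟩, -⟩ := hs
      push_cast
      omega
    · rw [Prod.mk.injEq] at hs
      exact absurd hs.2 (by decide)
  | succ i ih =>
    intro hQ h hs
    rw [pt_succ] at hs
    have hQ' : ∀ i' < i, Q k (front (pt σ i')) := fun i' hi' => hQ i' (by omega)
    obtain ⟨q1, q2⟩ := inQ σ hk i hQ'
    have h1 := back hF hB (valid hinj σ h0 i) (Q_mono hkR q1) (Q_mono hkR q2) hs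
    have h2 := ih hQ' _ h1
    push_cast
    omega

/-- Fact C -/
theorem factC (hinj : S_INJ) (hF : Flat V η R) (hB : Bdy V η σ) (h0 : Val σ start) {k : ℤ}
    (hk : 1 ≤ k) (hkR : k ≤ R) {i : ℕ} (hi : 1 ≤ i) (hQ : ∀ i' < i, Q k (front (pt σ i'))) :
    Inn V (pt σ i) := by
  by_contra hn
  obtain ⟨q1, q2⟩ := inQ σ hk i hQ
  obtain ⟨h, hh⟩ := factB hF hB (valid hinj σ h0 i) (Q_mono hkR q1) (Q_mono hkR q2) hn
  have h1 := height hinj hF hB h0 hk hkR i hQ h hh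
  rcases hh with ⟨y, hy, -, hh⟩ | ⟨y, hy, -, hh⟩ <;> omega

end

theorem uniq (σ : ℤ × ℤ → Bool) (k : ℤ) (i i' : ℕ) (s s' : St) (h : Hit σ k i s)
    (h' : Hit σ k i' s') : i = i' ∧ s = s' := by
  have h1 : i = i' := by
    rcases lt_trichotomy i i' with h1 | h1 | h1
    · have h2 := h'.2.2 i h1
      rw [h.1] at h2
      exact absurd h2 h.2.1
    · exact h1
    · have h2 := h.2.2 i' h1
      rw [h'.1] at h2
      exact absurd h2 h'.2.1
  subst h1
  exact ⟨rfl, h.1.symm.trans h'.1⟩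

theorem ex (hinj : S_INJ) (hexit : S_EXIT) (V : Finset (ℤ × ℤ)) (η σ : ℤ × ℤ → Bool) (R : ℕ)
    (hF : Flat V η R) (hB : Bdy V η σ) (k : ℤ) (hk : 1 ≤ k) (hkR : k ≤ R) :
    ∃ i s, Hit σ k i s ∧ i ≤ len V σ := by
  obtain ⟨h0, -, -, -, hout⟩ := hexit V η σ R (by omega) hF hB
  have hex : ∃ i, i ≤ len V σ ∧ ¬ Q k (front (pt σ i)) := by
    by_contra hne
    push Not at hne
    exact hout (factC hinj hF hB h0 hk hkR (by omega) fun i' hi' => hne i' (by omega))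
  classical
  obtain ⟨h1, h2⟩ := Nat.find_spec hex
  refine ⟨Nat.find hex, _, ⟨rfl, h2, fun i' hi' => ?_⟩, h1⟩
  have h3 := Nat.find_min hex hi'
  by_contra h4
  exact h3 ⟨by omega, h4⟩

theorem side {k : ℤ} {s : St} (h1 : Q k s.1) (h2 : Q k (rt s)) (h3 : ¬ Q k (front s)) :
    (s.2 = 0 ∧ s.1.2 = k) ∨ (s.2 = 2 ∧ s.1.1 + s.1.2 = -k ∧ (rt s).2 = s.1.2 + 1) ∨
      (s.2 = 4 ∧ s.1.1 = k ∧ (rt s).2 = s.1.2 - 1) := by
  obtain ⟨⟨x, y⟩, d⟩ := s
  unfold Q at h1 h2 h3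
  change x ≤ k ∧ y ≤ k ∧ -k ≤ x + y at h1
  change x + (dir d).1 ≤ k ∧ y + (dir d).2 ≤ k ∧ -k ≤ (x + (dir d).1) + (y + (dir d).2) at h2
  change ¬ (x + (dir (d + 1)).1 ≤ k ∧ y + (dir (d + 1)).2 ≤ k ∧
    -k ≤ (x + (dir (d + 1)).1) + (y + (dir (d + 1)).2)) at h3
  change (d = 0 ∧ y = k) ∨ (d = 2 ∧ x + y = -k ∧ y + (dir d).2 = y + 1) ∨
      (d = 4 ∧ x = k ∧ y + (dir d).2 = y - 1)
  have d0 : dir 0 = (1, 0) := by decide
  have d1 : dir 1 = (0, 1) := by decide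
  have d2 : dir 2 = (-1, 1) := by decide
  have d3 : dir 3 = (-1, 0) := by decide
  have d4 : dir 4 = (0, -1) := by decide
  have d5 : dir 5 = (1, -1) := by decide
  have hall : ∀ d' : Fin 6, d' = 0 ∨ d' = 1 ∨ d' = 2 ∨ d' = 3 ∨ d' = 4 ∨ d' = 5 := by
    decide
  rcases hall d with rfl | rfl | rfl | rfl | rfl | rfl
  · have e : (0 : Fin 6) + 1 = 1 := by decide
    rw [e, d1] at h3
    simp only at h3
    exact Or.inl ⟨rfl, by omega⟩
  · have e : (1 : Fin 6) + 1 = 2 := by decide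
    rw [e, d2] at h3
    rw [d1] at h2
    simp only at h2 h3
    omega
  · have e : (2 : Fin 6) + 1 = 3 := by decide
    rw [e, d3] at h3
    rw [d2] at h2 ⊢
    simp only at h2 h3
    exact Or.inr (Or.inl ⟨rfl, by omega, rfl⟩)
  · have e : (3 : Fin 6) + 1 = 4 := by decide
    rw [e, d4] at h3
    rw [d3] at h2
    simp only at h2 h3
    omega
  · have e : (4 : Fin 6) + 1 = 5 := by decide
    rw [e, d5] at h3
    rw [d4] at h2 ⊢
    simp only at h2 h3
    exact Or.inr (Or.inr ⟨rfl, by omega, rfl⟩)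
  · have e : (5 : Fin 6) + 1 = 0 := by decide
    rw [e, d0] at h3
    rw [d5] at h2
    simp only at h2 h3
    omega

theorem hit (hinj : Pool.Agent.N929.ON.S_INJ) (hexit : S_EXIT) : S_HIT := by
  refine ⟨ex hinj hexit, ?_, ?_, uniq⟩
  · intro V η σ R hF hB k hk hkR i s hs
    obtain ⟨h0, -, -, -, -⟩ := hexit V η σ R (by omega) hF hB
    obtain ⟨i', s', hs', hi'⟩ := ex hinj hexit V η σ R hF hB k hk hkR
    obtain ⟨e1, e2⟩ := uniq σ k i i' s s' hs hs'
    obtain ⟨q1, q2⟩ := inQ σ hk i hs.2.2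
    have hC : s.2 ≠ 0 → Inn V s := by
      intro h
      rw [← hs.1]
      refine factC hinj hF hB h0 hk hkR ?_ hs.2.2
      by_contra hi
      have hi0 : i = 0 := by omega
      apply h
      rw [← hs.1, hi0]
      rfl
    rw [hs.1] at q1 q2
    refine ⟨by omega, ?_, q1, q2⟩
    rcases side q1 q2 hs.2.1 with ⟨g1, g2⟩ | ⟨g1, g2, g3⟩ | ⟨g1, g2, g3⟩
    · exact Or.inl ⟨g1, g2⟩
    · refine Or.inr (Or.inl ⟨g1, g2, ?_⟩)
      rcases hC (by rw [g1]; decide) with h | h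
      · have := row_of_mem hF (Q_mono hkR q1) h
        omega
      · have := row_of_mem hF (Q_mono hkR q2) h
        omega
    · refine Or.inr (Or.inr ⟨g1, g2, ?_⟩)
      rcases hC (by rw [g1]; decide) with h | h
      · exact row_of_mem hF (Q_mono hkR q1) h
      · have := row_of_mem hF (Q_mono hkR q2) h
        omega
  · intro σ σ' k i s h hσ
    have key : ∀ i' ≤ i, pt σ' i' = pt σ i' := by
      intro i'
      induction i' with
      | zero => intro _; rfl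
      | succ i' ih =>
        intro hi'
        rw [pt_succ, pt_succ, ih (by omega)]
        have h1 := hσ _ (h.2.2 i' (by omega))
        unfold step
        rw [h1]
    refine ⟨⟨(key i le_rfl).trans h.1, h.2.1, fun i' hi' => ?_⟩, key⟩
    rw [key i' hi'.le]
    exact h.2.2 i' hi'

end Pool.Agent.N344.OM
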